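import Pool.Agent.V5helper39.WR.Stm3
import Pool.Agent.V5helper9.WR.GLUE

set_option autoImplicit false

/-!
# Project WR, job GLUET: the growing modulus, all pairs (number of exact powers, number of perturbed powers)
-/

open Finset MeasureTheory ProbabilityTheory Filter

namespace Pool.Agent.V5helper43.WR

open Pool.Agent.V5helper39.WQ Pool.Agent.V5helper39.WR
open Pool.Agent.V5helper9.WR (exists_index)

/-- the thresholds -/
def thr (F : ℕ → ℕ → ℕ) : ℕ → ℕ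
  | 0 => 0
  | l + 1 => thr F l + 1 + ∑ a ∈ range (l + 2), ∑ b ∈ range (l + 2), F a b

theorem thr_succ (F : ℕ → ℕ → ℕ) (l : ℕ) :
    thr F (l + 1) = thr F l + 1 + ∑ a ∈ range (l + 2), ∑ b ∈ range (l + 2), F a b := rfl

theorem thr_mono (F : ℕ → ℕ → ℕ) : StrictMono (thr F) := by
  refine strictMono_nat_of_lt_succ fun j => ?_
  rw [thr_succ]
  omega

theorem thr_le (F : ℕ → ℕ → ℕ) (l a b : ℕ) (ha : a ≤ l + 1) (hb : b ≤ l + 1) :
    F a b ≤ thr F (l + 1) := by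
  rw [thr_succ]
  have h1 := single_le_sum (f := fun a => ∑ b ∈ range (l + 2), F a b) (s := range (l + 2))
    (fun _ _ => Nat.zero_le _) (mem_range.2 (show a < l + 2 by omega))
  have h2 := single_le_sum (f := fun b => F a b) (s := range (l + 2))
    (fun _ _ => Nat.zero_le _) (mem_range.2 (show b < l + 2 by omega))
  beta_reduce at h1 h2
  omega

theorem chain_dvd (q : ℕ → ℕ) (hd : ∀ j, q j ∣ q (j + 1)) {a b : ℕ} (h : a ≤ b) : q a ∣ q b := by
  induction b, h using Nat.le_induction with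
  | base => exact dvd_rfl
  | succ b _ ih => exact ih.trans (hd b)

/-- Job GLUET. -/
theorem t_GLUET : S_GLUET := by
  intro k S γ c q hk hc hP hq hd
  have key : ∀ a b : ℕ, ∃ F : ℕ, Nat.unpair a ∈ S →
      ∀ (Ω : Type) [MeasurableSpace Ω] (μ : Measure Ω)
      [IsProbabilityMeasure μ] (θ : ℕ → Ω → ℕ), (∀ x, Measurable (θ x)) → iIndepFun θ μ →
      (∀ x ω, θ x ω ≤ x ^ (k - 1)) →
      ∀ n ≥ F, (∀ x v : ℕ, 1 ≤ x → x ≤ n → q b ∣ v → (v : ℝ) ≤ (x : ℝ) ^ γ →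
        c / (x : ℝ) ^ γ ≤ μ.real {ω | θ x ω = v}) →
      (∃ r : Fin ((Nat.unpair a).1 + (Nat.unpair a).2) → ℕ, (∑ i, r i ^ k) ≡ n [MOD q b]) →
      μ.real {ω | ¬ IsMix k (fun x => x ^ k + θ x ω) (Nat.unpair a).1 (Nat.unpair a).2 n} ≤
        1 / (n : ℝ) ^ 2 := by
    intro a b
    by_cases hs : Nat.unpair a ∈ S
    · obtain ⟨F, hF⟩ := hP _ hs (q b) (hq b)
      exact ⟨F, fun _ => hF⟩
    · exact ⟨0, fun h => absurd h hs⟩
  choose F hF using key
  obtain ⟨T, hTdef⟩ : ∃ T, T = thr F := ⟨_, rfl⟩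
  have hT0 : T 0 = 0 := by rw [hTdef]; rfl
  have hT : StrictMono T := by rw [hTdef]; exact thr_mono _
  have hTle : ∀ l a b, a ≤ l + 1 → b ≤ l + 1 → F a b ≤ T (l + 1) := by
    intro l a b ha hb
    rw [hTdef]
    exact thr_le F l a b ha hb
  obtain ⟨i₀, hi, hi', hTi⟩ := exists_index T hT0 hT
  refine ⟨i₀, hi, hi', ?_⟩
  intro i himono hii Ω _ μ _ θ hθ
  refine ae_all_iff.2 fun p => ?_
  by_cases hs : p ∈ S
  swap
  · exact Eventually.of_forall fun ω h => absurd h hs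
  obtain ⟨a, ha⟩ : ∃ a, Nat.unpair a = p := ⟨Nat.pair p.1 p.2, Nat.unpair_pair p.1 p.2⟩
  have hsa : Nat.unpair a ∈ S := by rw [ha]; exact hs
  refine (bc μ (fun n => {ω | (∃ r : Fin (p.1 + p.2) → ℕ, (∑ l, r l ^ k) ≡ n [MOD q (i n)]) ∧
    ¬ IsMix k (fun x => x ^ k + θ x ω) p.1 p.2 n}) 1 (T (a + 1)) ?_).mono
    fun ω hω _ => hω.mono fun n hn hL => ?_
  · intro n hn
    have h1 : a + 1 < i₀ n + 1 := hT.lt_iff_lt.1 (lt_of_le_of_lt hn (hTi n).2)
    obtain ⟨l, hl⟩ : ∃ l, i₀ n = l + 1 := ⟨i₀ n - 1, by omega⟩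
    have h2 : F a (i n) ≤ n := by
      have h3 := hii n
      have h4 := (hTi n).1
      have h5 := hTle l a (i n) (by omega) (by omega)
      rw [hl] at h4
      omega
    by_cases hL : ∃ r : Fin (p.1 + p.2) → ℕ, (∑ l, r l ^ k) ≡ n [MOD q (i n)]
    · have e1 : {ω | (∃ r : Fin (p.1 + p.2) → ℕ, (∑ l, r l ^ k) ≡ n [MOD q (i n)]) ∧
          ¬ IsMix k (fun x => x ^ k + θ x ω) p.1 p.2 n} =
          {ω | ¬ IsMix k (fun x => x ^ k + θ x ω) p.1 p.2 n} := by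
        ext ω
        exact ⟨fun h => h.2, fun h => ⟨hL, h⟩⟩
      rw [e1]
      subst ha
      refine hF a (i n) hsa Ω μ θ hθ.meas hθ.indep hθ.le n h2 ?_ hL
      intro x v hx1 hxn hv hvx
      exact hθ.spread x v hx1 ((chain_dvd q hd (himono hxn)).trans hv) hvx
    · have e1 : {ω | (∃ r : Fin (p.1 + p.2) → ℕ, (∑ l, r l ^ k) ≡ n [MOD q (i n)]) ∧
          ¬ IsMix k (fun x => x ^ k + θ x ω) p.1 p.2 n} = ∅ := by
        ext ω
        exact ⟨fun h => absurd h.1 hL, fun h => absurd h (Set.notMem_empty ω)⟩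
      rw [e1, measureReal_empty]
      positivity
  · by_contra h
    exact hn ⟨hL, h⟩

end Pool.Agent.V5helper43.WR
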